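import Mathlib

/-!
# Free copies under disjoint edge maps: `g_0(G) ≤ C (m / √n + n)` fails

`G` is a clique on `b ^ 6` vertices together with `b ^ 8 - b ^ 6` pendant vertices attached to
one vertex of the clique, so `n = b ^ 8` and `m ≤ n ^ (3/2) + n`.
-/

namespace Pool.Agent.Results.MP_48292c_co.CliqueWithPendants

open Finset

/-- The edges of the complete graph `K_N` on the vertex set `Fin N`. -/
abbrev EK (N : ℕ) : Type := (⊤ : SimpleGraph (Fin N)).edgeSet

/-- `F_{N,0}`: the maps `f : E(K_N) → E(K_N)` such that `f e` shares no vertex with `e`. -/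
def F0 (N : ℕ) : Set (EK N → EK N) :=
  {f | ∀ e : EK N, ∀ v : Fin N, v ∈ (e : Sym2 (Fin N)) → v ∉ (f e : Sym2 (Fin N))}

/-- The subgraph `H` of `K_N` is a copy of `G`, i.e. it is isomorphic to `G`. -/
def IsCopy {n N : ℕ} (G : SimpleGraph (Fin n)) (H : (⊤ : SimpleGraph (Fin N)).Subgraph) : Prop :=
  Nonempty (G ≃g H.coe)

/-- The subgraph `H` of `K_N` is `f`-free: `f e` is not an edge of `H` for any edge `e` of `H`. -/
def IsFree {N : ℕ} (f : EK N → EK N) (H : (⊤ : SimpleGraph (Fin N)).Subgraph) : Prop :=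
  ∀ e : EK N, (e : Sym2 (Fin N)) ∈ H.edgeSet → (f e : Sym2 (Fin N)) ∉ H.edgeSet

/-- `g_0(G)`: the least `N ≥ n` such that for every `f ∈ F_{N,0}` there is an `f`-free copy of
`G` in `K_N`. -/
noncomputable def g0 {n : ℕ} (G : SimpleGraph (Fin n)) : ℕ :=
  sInf {N : ℕ | n ≤ N ∧
    ∀ f ∈ F0 N, ∃ H : (⊤ : SimpleGraph (Fin N)).Subgraph, IsCopy G H ∧ IsFree f H}


/-- counting lemma: existence of a map on 2-sets hitting every s-set -/
theorem exists_map (N s : ℕ) (hs : 4 ≤ s)
    (hcount : N.choose s * ((N-2).choose 2 - (s-2).choose 2) ^ (s.choose 2)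
      < ((N-2).choose 2) ^ (s.choose 2)) :
    ∃ F : Finset (Fin N) → Finset (Fin N),
      (∀ e ∈ powersetCard 2 (univ : Finset (Fin N)), F e ∈ powersetCard 2 (univ \ e)) ∧
      ∀ S ∈ powersetCard s (univ : Finset (Fin N)), ∃ e ∈ powersetCard 2 S, F e ⊆ S := by
  classical
  set D := (N-2).choose 2 with hD
  set d := (s-2).choose 2 with hd
  set M := s.choose 2 with hM
  let t : Finset (Fin N) → Finset (Finset (Fin N)) := fun e =>
    if e ∈ powersetCard 2 (univ : Finset (Fin N)) then powersetCard 2 (univ \ e) else {∅}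
  let tS : Finset (Fin N) → Finset (Fin N) → Finset (Finset (Fin N)) := fun S e =>
    if e ∈ powersetCard 2 S then powersetCard 2 (univ \ e) \ powersetCard 2 (S \ e) else t e
  have hMpos : 0 < M := Nat.choose_pos (by omega)
  have hDpos : 0 < D := by
    by_contra h
    have : D = 0 := by omega
    rw [this, zero_pow hMpos.ne'] at hcount
    omega
  have ht : ∀ e ∈ powersetCard 2 (univ : Finset (Fin N)), #(t e) = D := by
    intro e he
    simp only [t, if_pos he, card_powersetCard]
    rw [card_sdiff_of_subset (subset_univ _), card_univ, Fintype.card_fin, (mem_powersetCard.1 he).2]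
  have htpos : ∀ e, 0 < #(t e) := by
    intro e
    by_cases he : e ∈ powersetCard 2 (univ : Finset (Fin N))
    · rw [ht e he]; exact hDpos
    · simp only [t, if_neg he, card_singleton]
      exact Nat.one_pos
  have htS : ∀ S ∈ powersetCard s (univ : Finset (Fin N)), ∀ e ∈ powersetCard 2 S,
      #(tS S e) = D - d := by
    intro S hS e he
    have he' := mem_powersetCard.1 he
    have hS' := mem_powersetCard.1 hS
    have hsub : powersetCard 2 (S \ e) ⊆ powersetCard 2 ((univ : Finset (Fin N)) \ e) :=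
      powersetCard_mono (sdiff_subset_sdiff (subset_univ _) (le_refl _))
    simp only [tS, if_pos he]
    rw [card_sdiff_of_subset hsub, card_powersetCard, card_powersetCard,
      card_sdiff_of_subset (subset_univ _), card_univ, Fintype.card_fin,
      card_sdiff_of_subset he'.1, he'.2, hS'.2]
  have hprod : ∀ S ∈ powersetCard s (univ : Finset (Fin N)),
      D ^ M * #(Fintype.piFinset (tS S)) = (D - d) ^ M * #(Fintype.piFinset t) := by
    intro S hS
    have hS' := mem_powersetCard.1 hS
    rw [Fintype.card_piFinset, Fintype.card_piFinset]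
    have hcardP : #(powersetCard 2 S) = M := by rw [card_powersetCard, hS'.2]
    rw [← Finset.prod_mul_prod_compl (powersetCard 2 S) (fun e => #(tS S e)),
      ← Finset.prod_mul_prod_compl (powersetCard 2 S) (fun e => #(t e))]
    rw [Finset.prod_congr rfl (htS S hS), Finset.prod_const, hcardP]
    have h2 : ∀ e ∈ powersetCard 2 S, #(t e) = D := by
      intro e he
      exact ht e (powersetCard_mono (subset_univ _) he)
    rw [Finset.prod_congr rfl h2, Finset.prod_const, hcardP]
    have h3 : ∀ e ∈ (powersetCard 2 S)ᶜ, #(tS S e) = #(t e) := by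
      intro e he
      rw [mem_compl] at he
      simp only [tS, if_neg he]
    rw [Finset.prod_congr rfl h3]
    ring
  by_contra hcon
  push Not at hcon
  -- every admissible map lies in some piFinset (tS S)
  have hcover : Fintype.piFinset t ⊆
      (powersetCard s (univ : Finset (Fin N))).biUnion (fun S => Fintype.piFinset (tS S)) := by
    intro F hF
    rw [Fintype.mem_piFinset] at hF
    have h1 : ∀ e ∈ powersetCard 2 (univ : Finset (Fin N)), F e ∈ powersetCard 2 (univ \ e) := by
      intro e he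
      have := hF e
      simpa only [t, if_pos he] using this
    obtain ⟨S, hS, hS2⟩ := hcon F h1
    rw [mem_biUnion]
    refine ⟨S, hS, ?_⟩
    rw [Fintype.mem_piFinset]
    intro e
    by_cases he : e ∈ powersetCard 2 S
    · simp only [tS, if_pos he]
      rw [mem_sdiff]
      refine ⟨h1 e (powersetCard_mono (subset_univ _) he), ?_⟩
      intro h4
      exact hS2 e he ((mem_powersetCard.1 h4).1.trans sdiff_subset)
    · simp only [tS, if_neg he]
      exact hF e
  have hcard : #(Fintype.piFinset t) ≤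
      ∑ S ∈ powersetCard s (univ : Finset (Fin N)), #(Fintype.piFinset (tS S)) :=
    (card_le_card hcover).trans card_biUnion_le
  have hpos : 0 < #(Fintype.piFinset t) := by
    rw [Fintype.card_piFinset]
    exact Finset.prod_pos (fun e _ => htpos e)
  have h5 : D ^ M * #(Fintype.piFinset t) ≤
      (N.choose s * (D - d) ^ M) * #(Fintype.piFinset t) := by
    calc D ^ M * #(Fintype.piFinset t)
        ≤ D ^ M * ∑ S ∈ powersetCard s (univ : Finset (Fin N)), #(Fintype.piFinset (tS S)) :=
          Nat.mul_le_mul_left _ hcard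
      _ = ∑ S ∈ powersetCard s (univ : Finset (Fin N)), D ^ M * #(Fintype.piFinset (tS S)) := by
          rw [Finset.mul_sum]
      _ = ∑ S ∈ powersetCard s (univ : Finset (Fin N)), (D - d) ^ M * #(Fintype.piFinset t) :=
          Finset.sum_congr rfl hprod
      _ = (N.choose s * (D - d) ^ M) * #(Fintype.piFinset t) := by
          rw [Finset.sum_const, card_powersetCard, card_univ, Fintype.card_fin, smul_eq_mul,
            mul_assoc]
  have h6 := Nat.le_of_mul_le_mul_right h5 hpos
  omega

/-- numeric inequality -/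
theorem numeric (K b N : ℕ) (hK : 1 ≤ K) (hb : b = 16 * K^2 * (K+8) + 1)
    (hN1 : b^8 ≤ N) (hN2 : N ≤ K * b^8) :
    N.choose (b^6) * ((N-2).choose 2 - (b^6-2).choose 2) ^ ((b^6).choose 2)
      < ((N-2).choose 2) ^ ((b^6).choose 2) := by
  set s := b^6 with hs
  have hb2 : 16 ≤ b := by
    have : 1 ≤ K^2 := Nat.one_le_pow _ _ hK
    nlinarith
  have hs16 : 16 ≤ s := by
    calc 16 ≤ b := hb2
      _ ≤ b^6 := Nat.le_self_pow (by norm_num) b
  have hNs : s ≤ N := by
    calc s ≤ b^8 := Nat.pow_le_pow_right (by omega) (by norm_num)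
      _ ≤ N := hN1
  -- real versions
  have hbR : (16:ℝ) ≤ b := by exact_mod_cast hb2
  have hsR : (16:ℝ) ≤ s := by exact_mod_cast hs16
  have hNR : (s:ℝ) ≤ N := by exact_mod_cast hNs
  have hKR : (1:ℝ) ≤ K := by exact_mod_cast hK
  have hN0 : (0:ℝ) < N := by linarith
  have hDle : (s-2).choose 2 ≤ (N-2).choose 2 := Nat.choose_le_choose 2 (by omega)
  have hDval : (((N-2).choose 2 : ℕ) : ℝ) = (N-2) * (N-3) / 2 := by
    rw [Nat.cast_choose_two, Nat.cast_sub (by omega)]
    push_cast; ring
  have hdval : (((s-2).choose 2 : ℕ) : ℝ) = (s-2) * (s-3) / 2 := by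
    rw [Nat.cast_choose_two, Nat.cast_sub (by omega)]
    push_cast; ring
  have hMval : ((s.choose 2 : ℕ) : ℝ) = s * (s-1) / 2 := by
    rw [Nat.cast_choose_two]
  set D : ℝ := (((N-2).choose 2 : ℕ) : ℝ) with hD
  set d : ℝ := (((s-2).choose 2 : ℕ) : ℝ) with hd
  set M : ℕ := s.choose 2 with hM
  have hDpos : 0 < D := by rw [hDval]; nlinarith
  have key : (N:ℝ)^s * (D - d)^M < D^M := by
    have h1 : D - d ≤ D * Real.exp (-(d/D)) := by
      have := Real.add_one_le_exp (-(d/D))
      calc D - d = D * (-(d/D) + 1) := by field_simp; ring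
        _ ≤ D * Real.exp (-(d/D)) := by gcongr
    have h0 : 0 ≤ D - d := by
      have : d ≤ D := by rw [hD, hd]; exact_mod_cast hDle
      linarith
    have h2 : (D - d)^M ≤ D^M * Real.exp (-(d/D) * M) := by
      calc (D - d)^M ≤ (D * Real.exp (-(d/D)))^M := by gcongr
        _ = D^M * Real.exp (-(d/D) * M) := by
          rw [mul_pow, ← Real.exp_nat_mul]; ring_nf
    have h3 : (N:ℝ)^s = Real.exp (s * Real.log N) := by
      rw [mul_comm, Real.exp_mul, Real.exp_log hN0, Real.rpow_natCast]
    have h4 : (s:ℝ) * Real.log N < d / D * M := by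
      -- log bound
      have hlog : Real.log N ≤ K + 8 * b := by
        have hle : (N:ℝ) ≤ K * b^8 := by exact_mod_cast hN2
        calc Real.log N ≤ Real.log (K * b^8) := Real.log_le_log hN0 hle
          _ = Real.log K + 8 * Real.log b := by
            rw [Real.log_mul (by positivity) (by positivity), Real.log_pow]; norm_num
          _ ≤ K + 8 * b := by
            have h5 := Real.log_le_sub_one_of_pos (show (0:ℝ) < K by linarith)
            have h6 := Real.log_le_sub_one_of_pos (show (0:ℝ) < b by linarith)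
            linarith
      have hdl : (s:ℝ)^2/4 ≤ d := by rw [hdval]; nlinarith
      have hMl : (s:ℝ)^2/4 ≤ M := by rw [hMval]; nlinarith
      have hDu : D ≤ (N:ℝ)^2/2 := by rw [hDval]; nlinarith
      have hle : (N:ℝ) ≤ K * b^8 := by exact_mod_cast hN2
      have hsb : (s:ℝ) = b^6 := by rw [hs]; push_cast; ring
      have hbK : (b:ℝ) = 16 * K^2 * (K+8) + 1 := by rw [hb]; push_cast; ring
      have h7 : (b:ℝ)^8 / (8 * K^2) ≤ d / D * M := by
        have hN2' : (N:ℝ)^2 ≤ (K:ℝ)^2 * (b:ℝ)^16 := by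
          calc (N:ℝ)^2 ≤ ((K:ℝ) * (b:ℝ)^8)^2 := by gcongr
            _ = (K:ℝ)^2 * (b:ℝ)^16 := by ring
        calc (b:ℝ)^8 / (8 * K^2) = ((s:ℝ)^2/4) * ((s:ℝ)^2/4) / ((K^2 * b^16)/2) := by
              rw [hsb]; field_simp; ring
          _ ≤ d * M / D := by
              apply div_le_div₀
              · positivity
              · gcongr
              · exact hDpos
              · linarith
          _ = d / D * M := by ring
      have h8 : (s:ℝ) * Real.log N ≤ b^6 * (K + 8 * b) := by
        rw [hsb]; gcongr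
      have h9 : (b:ℝ)^6 * (K + 8 * b) < (b:ℝ)^8 / (8 * K^2) := by
        rw [lt_div_iff₀ (by positivity)]
        have h10 : 16 * (K:ℝ)^2 * (K + 8*b) < b^2 := by
          have : (b:ℝ)^2 = b * (16 * K^2 * (K+8) + 1) := by rw [sq, ← hbK]
          rw [this]
          have h11 : (0:ℝ) ≤ K^3 * (b - 1) := by
            have : (0:ℝ) ≤ b - 1 := by linarith
            positivity
          nlinarith
        have hb6 : (0:ℝ) < b^6 := by positivity
        have hK2 : (0:ℝ) < K^2 * (K + 8*b) := by positivity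
        calc (b:ℝ)^6 * (K + 8 * b) * (8 * K^2) = (b:ℝ)^6 * (8 * ((K:ℝ)^2 * (K + 8*b))) := by ring
          _ < (b:ℝ)^6 * (16 * ((K:ℝ)^2 * (K + 8*b))) := by
            apply mul_lt_mul_of_pos_left _ hb6
            linarith
          _ = (b:ℝ)^6 * (16 * (K:ℝ)^2 * (K + 8*b)) := by ring
          _ ≤ (b:ℝ)^6 * (b:ℝ)^2 := by gcongr
          _ = (b:ℝ)^8 := by ring
      linarith
    calc (N:ℝ)^s * (D - d)^M ≤ Real.exp (s * Real.log N) * (D^M * Real.exp (-(d/D) * M)) := by
          rw [h3]; gcongr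
      _ = D^M * Real.exp (s * Real.log N - d/D * M) := by
          rw [show (s:ℝ) * Real.log N - d/D * M = s * Real.log N + (-(d/D) * M) by ring,
            Real.exp_add]
          ring
      _ < D^M * 1 := by
          apply mul_lt_mul_of_pos_left _ (by positivity)
          rw [Real.exp_lt_one_iff] 
          linarith
      _ = D^M := by ring
  have hch : (N.choose s : ℝ) ≤ (N:ℝ)^s := by exact_mod_cast Nat.choose_le_pow N s
  have hfin : (N.choose s : ℝ) * (D - d)^M < D^M := by
    have h0 : 0 ≤ (D - d)^M := by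
      have : d ≤ D := by rw [hD, hd]; exact_mod_cast hDle
      have : 0 ≤ D - d := by linarith
      positivity
    calc (N.choose s : ℝ) * (D - d)^M ≤ (N:ℝ)^s * (D - d)^M := by gcongr
      _ < D^M := key
  have hcast : (((N.choose s * ((N-2).choose 2 - (s-2).choose 2) ^ M : ℕ)) : ℝ)
      = (N.choose s : ℝ) * (D - d)^M := by
    rw [Nat.cast_mul, Nat.cast_pow, Nat.cast_sub hDle]
  have hcast2 : ((((N-2).choose 2) ^ M : ℕ) : ℝ) = D^M := by rw [Nat.cast_pow]
  rw [← hcast, ← hcast2] at hfin
  exact_mod_cast hfin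


/-- from maps on 2-sets to maps in `F_{N,0}` -/
theorem exists_f (N : ℕ) (F : Finset (Fin N) → Finset (Fin N))
    (hF : ∀ e ∈ powersetCard 2 (univ : Finset (Fin N)), F e ∈ powersetCard 2 (univ \ e)) :
    ∃ f ∈ F0 N, ∀ e : EK N, ((f e : Sym2 (Fin N))).toFinset = F ((e : Sym2 (Fin N)).toFinset) := by
  classical
  have h1 : ∀ e : EK N, (e : Sym2 (Fin N)).toFinset ∈ powersetCard 2 (univ : Finset (Fin N)) := by
    intro e
    rw [mem_powersetCard]
    refine ⟨subset_univ _, Sym2.card_toFinset_of_not_isDiag _ ?_⟩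
    exact SimpleGraph.not_isDiag_of_mem_edgeSet _ e.2
  have h2 : ∀ e : EK N, ∃ e' : EK N, (e' : Sym2 (Fin N)).toFinset = F ((e : Sym2 (Fin N)).toFinset) := by
    intro e
    have h3 := (mem_powersetCard.1 (hF _ (h1 e))).2
    obtain ⟨x, y, hxy, hF2⟩ := card_eq_two.1 h3
    refine ⟨⟨s(x, y), ?_⟩, ?_⟩
    · rw [SimpleGraph.mem_edgeSet]; exact hxy
    · rw [hF2]
      ext z
      simp [Sym2.mem_toFinset]
  choose f hf using h2
  refine ⟨f, ?_, hf⟩
  intro e v hv hv2
  have h4 : v ∈ (f e : Sym2 (Fin N)).toFinset := Sym2.mem_toFinset.2 hv2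
  rw [hf e] at h4
  have h5 := (mem_powersetCard.1 (hF _ (h1 e))).1 h4
  rw [mem_sdiff] at h5
  exact h5.2 (Sym2.mem_toFinset.2 hv)

/-- no free copy of a graph containing a clique on `s` vertices -/
theorem no_free_copy {n N s : ℕ} (G : SimpleGraph (Fin n)) (hsn : s ≤ n)
    (hG : ∀ i j : Fin n, i.val < s → j.val < s → i ≠ j → G.Adj i j)
    (F : Finset (Fin N) → Finset (Fin N))
    (hS : ∀ S ∈ powersetCard s (univ : Finset (Fin N)), ∃ e ∈ powersetCard 2 S, F e ⊆ S)
    (f : EK N → EK N)
    (hf : ∀ e : EK N, ((f e : Sym2 (Fin N))).toFinset = F ((e : Sym2 (Fin N)).toFinset)) :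
    ¬ ∃ H : (⊤ : SimpleGraph (Fin N)).Subgraph, IsCopy G H ∧ IsFree f H := by
  classical
  rintro ⟨H, ⟨φ⟩, hfree⟩
  let ψ : Fin n → Fin N := fun i => (φ i : Fin N)
  have hψ : Function.Injective ψ := fun i j h => φ.injective (Subtype.ext h)
  let ι : Fin s → Fin N := fun i => ψ (Fin.castLE hsn i)
  have hι : Function.Injective ι := hψ.comp (Fin.castLE_injective hsn)
  let S : Finset (Fin N) := univ.image ι
  have hScard : S ∈ powersetCard s (univ : Finset (Fin N)) := by
    rw [mem_powersetCard]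
    refine ⟨subset_univ _, ?_⟩
    rw [card_image_of_injective _ hι, card_univ, Fintype.card_fin]
  have hadj : ∀ x ∈ S, ∀ y ∈ S, x ≠ y → H.Adj x y := by
    intro x hx y hy hxy
    rw [mem_image] at hx hy
    obtain ⟨i, -, rfl⟩ := hx
    obtain ⟨j, -, rfl⟩ := hy
    have h1 : G.Adj (Fin.castLE hsn i) (Fin.castLE hsn j) := by
      apply hG
      · simp
      · simp
      · intro h; exact hxy (by simp only [ι, h])
    have h2 := φ.map_rel_iff.2 h1
    exact h2
  have hedge : ∀ e : Sym2 (Fin N), ¬ e.IsDiag → e.toFinset ⊆ S → e ∈ H.edgeSet := by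
    intro e
    induction e using Sym2.ind with
    | _ x y =>
      intro hd hsub
      rw [SimpleGraph.Subgraph.mem_edgeSet]
      apply hadj
      · exact hsub (by simp [Sym2.mem_toFinset])
      · exact hsub (by simp [Sym2.mem_toFinset])
      · simpa using hd
  obtain ⟨e, he, heF⟩ := hS S hScard
  obtain ⟨hesub, hecard⟩ := mem_powersetCard.1 he
  obtain ⟨x, y, hxy, rfl⟩ := card_eq_two.1 hecard
  let e' : EK N := ⟨s(x, y), by rw [SimpleGraph.mem_edgeSet]; exact hxy⟩
  have he' : (e' : Sym2 (Fin N)).toFinset = {x, y} := by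
    ext z
    simp [e', Sym2.mem_toFinset]
  apply hfree e'
  · apply hedge
    · exact SimpleGraph.not_isDiag_of_mem_edgeSet _ e'.2
    · rw [he']; exact hesub
  · apply hedge
    · exact SimpleGraph.not_isDiag_of_mem_edgeSet _ (f e').2
    · rw [hf, he']; exact heF

/-- every graph has free copies for large `N` -/
theorem exists_N {n : ℕ} (hn : 4 ≤ n) (G : SimpleGraph (Fin n)) :
    ∃ N : ℕ, n ≤ N ∧
      ∀ f ∈ F0 N, ∃ H : (⊤ : SimpleGraph (Fin N)).Subgraph, IsCopy G H ∧ IsFree f H := by
  classical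
  obtain ⟨N, hNn, hN⟩ : ∃ N : ℕ, n ≤ N ∧ N.choose 2 * n.choose 4 < N.choose 4 := by
    refine ⟨n^4 + n + 100, by omega, ?_⟩
    have h1 : n.choose 4 ≤ n^4 := Nat.choose_le_pow n 4
    set N := n^4 + n + 100 with hN
    have h2 : N.choose 4 * 12 = N.choose 2 * ((N-2) * (N-3)) := by
      have h3 := Nat.choose_mul (n := N) (k := 4) (s := 2) (by norm_num)
      have h4 : (N-2).choose 2 * 2 = (N-2) * (N-3) := by
        rw [Nat.choose_two_right, show N - 2 - 1 = N - 3 by omega]
        exact Nat.div_mul_cancel (by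
          have := Nat.even_mul_pred_self (N-2)
          rw [show N - 2 - 1 = N - 3 by omega] at this
          exact this.two_dvd)
      have h5 : (4:ℕ).choose 2 = 6 := by decide
      rw [h5] at h3
      simp only [show 4 - 2 = 2 from rfl] at h3
      calc N.choose 4 * 12 = (N.choose 4 * 6) * 2 := by ring
        _ = N.choose 2 * ((N-2).choose 2 * 2) := by rw [h3]; ring
        _ = N.choose 2 * ((N-2) * (N-3)) := by rw [h4]
    have h6 : 0 < N.choose 2 := Nat.choose_pos (by omega)
    have h7 : n.choose 4 * 12 < (N-2) * (N-3) := by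
      have h8 : n^4 + 97 ≤ N - 3 := by omega
      have h9 : n^4 + 97 ≤ N - 2 := by omega
      calc n.choose 4 * 12 ≤ n^4 * 12 := by gcongr
        _ < (n^4 + 97) * (n^4 + 97) := by nlinarith
        _ ≤ (N-2) * (N-3) := by gcongr
    have h10 : (N.choose 2 * n.choose 4) * 12 < N.choose 4 * 12 := by
      rw [h2]
      calc (N.choose 2 * n.choose 4) * 12 = N.choose 2 * (n.choose 4 * 12) := by ring
        _ < N.choose 2 * ((N-2) * (N-3)) := Nat.mul_lt_mul_of_pos_left h7 h6
    omega
  refine ⟨N, hNn, ?_⟩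
  intro f hf
  -- there is an n-set containing no edge together with its image
  obtain ⟨S, hS, hfreeS⟩ : ∃ S ∈ powersetCard n (univ : Finset (Fin N)),
      ∀ e : EK N, (e : Sym2 (Fin N)).toFinset ⊆ S → ¬ (f e : Sym2 (Fin N)).toFinset ⊆ S := by
    by_contra hcon
    push Not at hcon
    have hcover : powersetCard n (univ : Finset (Fin N)) ⊆
        (univ : Finset (EK N)).biUnion (fun e =>
          (powersetCard n (univ : Finset (Fin N))).filter (fun S =>
            (e : Sym2 (Fin N)).toFinset ∪ (f e : Sym2 (Fin N)).toFinset ⊆ S)) := by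
      intro S hS
      obtain ⟨e, he1, he2⟩ := hcon S hS
      rw [mem_biUnion]
      refine ⟨e, mem_univ _, ?_⟩
      rw [mem_filter]
      exact ⟨hS, union_subset he1 he2⟩
    have hcard := (card_le_card hcover).trans card_biUnion_le
    have hbound : ∀ e : EK N, #((powersetCard n (univ : Finset (Fin N))).filter (fun S =>
            (e : Sym2 (Fin N)).toFinset ∪ (f e : Sym2 (Fin N)).toFinset ⊆ S))
          ≤ (N-4).choose (n-4) := by
      intro e
      set T := (e : Sym2 (Fin N)).toFinset ∪ (f e : Sym2 (Fin N)).toFinset with hT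
      have hTcard : #T = 4 := by
        rw [hT, card_union_of_disjoint, Sym2.card_toFinset_of_not_isDiag _
          (SimpleGraph.not_isDiag_of_mem_edgeSet _ e.2), Sym2.card_toFinset_of_not_isDiag _
          (SimpleGraph.not_isDiag_of_mem_edgeSet _ (f e).2)]
        rw [Finset.disjoint_left]
        intro v hv hv2
        exact hf e v (Sym2.mem_toFinset.1 hv) (Sym2.mem_toFinset.1 hv2)
      have h1 : #(powersetCard (n-4) ((univ : Finset (Fin N)) \ T)) = (N-4).choose (n-4) := by
        rw [card_powersetCard, card_sdiff_of_subset (subset_univ _), card_univ, Fintype.card_fin,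
          hTcard]
      rw [← h1]
      apply card_le_card_of_injOn (fun S => S \ T)
      · intro S hS
        rw [mem_coe, mem_filter, mem_powersetCard] at hS
        rw [mem_coe, mem_powersetCard]
        refine ⟨sdiff_subset_sdiff (subset_univ _) (le_refl _), ?_⟩
        rw [card_sdiff_of_subset hS.2, hS.1.2, hTcard]
      · intro S hS S' hS' hSS
        rw [mem_coe, mem_filter] at hS hS'
        simp only at hSS
        rw [← sdiff_union_of_subset hS.2, ← sdiff_union_of_subset hS'.2, hSS]
    have hsum : ∑ e : EK N, #((powersetCard n (univ : Finset (Fin N))).filter (fun S =>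
            (e : Sym2 (Fin N)).toFinset ∪ (f e : Sym2 (Fin N)).toFinset ⊆ S))
          ≤ N.choose 2 * (N-4).choose (n-4) := by
      calc _ ≤ ∑ _e : EK N, (N-4).choose (n-4) := Finset.sum_le_sum (fun e _ => hbound e)
        _ = Fintype.card (EK N) * (N-4).choose (n-4) := by
          rw [Finset.sum_const, card_univ, smul_eq_mul]
        _ = N.choose 2 * (N-4).choose (n-4) := by
          congr 1
          rw [← SimpleGraph.edgeFinset_card]
          rw [SimpleGraph.card_edgeFinset_top_eq_card_choose_two, Fintype.card_fin]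
    rw [card_powersetCard, card_univ, Fintype.card_fin] at hcard
    have h1 : N.choose n ≤ N.choose 2 * (N-4).choose (n-4) := hcard.trans hsum
    have h2 := Nat.choose_mul (n := N) (k := n) (s := 4) hn
    have h3 : 0 < (N-4).choose (n-4) := Nat.choose_pos (by omega)
    have h4 : N.choose 4 * (N-4).choose (n-4) ≤ (N.choose 2 * n.choose 4) * (N-4).choose (n-4) := by
      rw [← h2]
      calc N.choose n * n.choose 4 ≤ (N.choose 2 * (N-4).choose (n-4)) * n.choose 4 := by gcongr
        _ = (N.choose 2 * n.choose 4) * (N-4).choose (n-4) := by ring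
    have h5 := Nat.le_of_mul_le_mul_right h4 h3
    omega
  have hScard := (mem_powersetCard.1 hS).2
  let g : Fin n ↪o Fin N := S.orderEmbOfFin hScard
  let c : SimpleGraph.Copy G (⊤ : SimpleGraph (Fin N)) :=
    ⟨⟨fun i => g i, by
      intro a b hab
      rw [SimpleGraph.top_adj]
      intro h
      exact hab.ne (g.injective h)⟩, g.injective⟩
  refine ⟨c.toSubgraph, ⟨c.isoToSubgraph⟩, ?_⟩
  have hin : ∀ e : Sym2 (Fin N), e ∈ c.toSubgraph.edgeSet → e.toFinset ⊆ S := by
    intro e he v hv
    rw [Sym2.mem_toFinset] at hv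
    have h1 : v ∈ c.toSubgraph.verts := SimpleGraph.Subgraph.mem_verts_of_mem_edge he hv
    obtain ⟨i, -, hi⟩ := h1
    rw [← hi]
    exact S.orderEmbOfFin_mem hScard i
  intro e he1 he2
  exact hfreeS e (hin _ he1) (hin _ he2)

/-- the clique on `s` vertices with `n - s` pendant vertices attached to vertex `0` -/
def GG (s n : ℕ) : SimpleGraph (Fin n) where
  Adj i j := i ≠ j ∧ ((i.val < s ∧ j.val < s) ∨ i.val = 0 ∨ j.val = 0)
  symm := ⟨by
    intro i j h
    refine ⟨h.1.symm, ?_⟩
    rcases h.2 with h | h | h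
    · exact Or.inl ⟨h.2, h.1⟩
    · exact Or.inr (Or.inr h)
    · exact Or.inr (Or.inl h)⟩
  loopless := ⟨fun i h => h.1 rfl⟩

theorem GG_edges (s n : ℕ) (hn : 0 < n) : (GG s n).edgeSet.ncard ≤ s^2 + n := by
  classical
  let A : Finset (Sym2 (Fin n)) :=
    ((univ.filter (fun i : Fin n => i.val < s)) ×ˢ (univ.filter (fun i : Fin n => i.val < s))).image
      (fun p => s(p.1, p.2)) ∪ (univ : Finset (Fin n)).image (fun j => s(⟨0, hn⟩, j))
  have hsub : (GG s n).edgeSet ⊆ (A : Set (Sym2 (Fin n))) := by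
    intro e
    induction e using Sym2.ind with
    | _ x y =>
      intro h
      rw [SimpleGraph.mem_edgeSet] at h
      rw [mem_coe, mem_union]
      rcases h.2 with h | h | h
      · left
        rw [mem_image]
        exact ⟨(x, y), by simp [h.1, h.2], rfl⟩
      · right
        rw [mem_image]
        refine ⟨y, mem_univ _, ?_⟩
        have : x = ⟨0, hn⟩ := Fin.ext h
        rw [this]
      · right
        rw [mem_image]
        refine ⟨x, mem_univ _, ?_⟩
        have : y = ⟨0, hn⟩ := Fin.ext h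
        rw [this, Sym2.eq_swap]
  calc (GG s n).edgeSet.ncard ≤ (A : Set (Sym2 (Fin n))).ncard := Set.ncard_le_ncard hsub
    _ = #A := Set.ncard_coe_finset A
    _ ≤ s^2 + n := by
      refine (card_union_le _ _).trans ?_
      apply Nat.add_le_add
      · refine card_image_le.trans ?_
        rw [card_product, sq]
        have : #(univ.filter (fun i : Fin n => i.val < s)) ≤ s := by
          have h1 : #(univ.filter (fun i : Fin n => i.val < s)) ≤ #(Finset.range s) := by
            apply card_le_card_of_injOn (fun i => i.val)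
            · intro i hi
              rw [mem_coe, mem_filter] at hi
              rw [mem_coe, mem_range]; exact hi.2
            · intro i _ j _ h
              exact Fin.ext h
          rwa [card_range] at h1
        exact Nat.mul_le_mul this this
      · refine card_image_le.trans ?_
        rw [card_univ, Fintype.card_fin]

/-- **Disproof of Q1.** For every `C > 0` there is a connected graph `G` on `n ≥ 4` vertices
(so without isolated vertices), with `m` edges, such that `g_0(G) > C (m / √n + n)`. -/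
theorem result : ∀ C : ℝ, 0 < C → ∃ (n : ℕ) (G : SimpleGraph (Fin n)),
    4 ≤ n ∧ G.Connected ∧ (∀ v, ∃ w, G.Adj v w) ∧
      C * ((G.edgeSet.ncard : ℝ) / Real.sqrt n + n) < g0 G := by
  intro C hC
  obtain ⟨K, hK⟩ := exists_nat_ge (max (3 * C) 1)
  have hK1 : 1 ≤ K := by exact_mod_cast (le_max_right _ _).trans hK
  have hK3 : 3 * C ≤ K := (le_max_left _ _).trans hK
  set b : ℕ := 16 * K^2 * (K+8) + 1 with hb
  have hb2 : 16 ≤ b := by
    have : 1 ≤ K^2 := Nat.one_le_pow _ _ hK1
    nlinarith
  have hb6 : 16 ≤ b^6 := hb2.trans (Nat.le_self_pow (by norm_num) b)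
  have hb68 : b^6 < b^8 := Nat.pow_lt_pow_right (by omega) (by norm_num)
  have hn : 4 ≤ b^8 := by omega
  have h0 : 0 < b^8 := by omega
  have hz : ∀ v : Fin (b^8), v.val ≠ 0 → (GG (b^6) (b^8)).Adj v ⟨0, h0⟩ := by
    intro v hv
    refine ⟨?_, Or.inr (Or.inr rfl)⟩
    intro h
    exact hv (by rw [h])
  refine ⟨b^8, GG (b^6) (b^8), hn, ?_, ?_, ?_⟩
  · have hr : ∀ v : Fin (b^8), (GG (b^6) (b^8)).Reachable v ⟨0, h0⟩ := by
      intro v
      by_cases hv : v.val = 0
      · have : v = ⟨0, h0⟩ := Fin.ext hv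
        rw [this]
      · exact (hz v hv).reachable
    have hne : Nonempty (Fin (b^8)) := ⟨⟨0, h0⟩⟩
    exact ⟨fun u v => (hr u).trans (hr v).symm⟩
  · intro v
    by_cases hv : v.val = 0
    · refine ⟨⟨1, by omega⟩, ?_, ?_⟩
      · intro h
        rw [h] at hv
        exact one_ne_zero hv
      · exact Or.inr (Or.inl hv)
    · exact ⟨_, hz v hv⟩
  · have hmem := Nat.sInf_mem (exists_N hn (GG (b^6) (b^8)))
    set N := sInf {N : ℕ | b^8 ≤ N ∧
      ∀ f ∈ F0 N, ∃ H : (⊤ : SimpleGraph (Fin N)).Subgraph, IsCopy (GG (b^6) (b^8)) H ∧ IsFree f H}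
      with hN
    have hg : g0 (GG (b^6) (b^8)) = N := rfl
    rw [hg]
    obtain ⟨hN1, hN2⟩ := hmem
    have hNgt : K * b^8 < N := by
      by_contra hle
      push Not at hle
      obtain ⟨F, hF1, hF2⟩ := exists_map N (b^6) (by omega) (numeric K b N hK1 hb hN1 hle)
      obtain ⟨f, hf0, hf⟩ := exists_f N F hF1
      refine no_free_copy (GG (b^6) (b^8)) hb68.le ?_ F hF2 f hf (hN2 f hf0)
      intro i j hi hj hij
      exact ⟨hij, Or.inl ⟨hi, hj⟩⟩
    have hm := GG_edges (b^6) (b^8) h0
    have hm' : ((GG (b^6) (b^8)).edgeSet.ncard : ℝ) ≤ (b:ℝ)^12 + (b:ℝ)^8 := by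
      have : (((GG (b^6) (b^8)).edgeSet.ncard : ℕ) : ℝ) ≤ (((b^6)^2 + b^8 : ℕ) : ℝ) := by
        exact_mod_cast hm
      refine this.trans (le_of_eq ?_)
      push_cast; ring
    have hbR : (16:ℝ) ≤ b := by exact_mod_cast hb2
    have hb0 : (0:ℝ) < b := by linarith
    have hsqrt : Real.sqrt ((b^8 : ℕ) : ℝ) = (b:ℝ)^4 := by
      rw [show (((b^8 : ℕ) : ℝ)) = ((b:ℝ)^4)^2 by push_cast; ring]
      exact Real.sqrt_sq (by positivity)
    rw [hsqrt]
    have h1 : ((GG (b^6) (b^8)).edgeSet.ncard : ℝ) / (b:ℝ)^4 + ((b^8 : ℕ) : ℝ) ≤ 3 * (b:ℝ)^8 := by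
      have h2 : ((GG (b^6) (b^8)).edgeSet.ncard : ℝ) / (b:ℝ)^4 ≤ 2 * (b:ℝ)^8 := by
        rw [div_le_iff₀ (by positivity)]
        refine hm'.trans ?_
        have h3 : (b:ℝ)^8 ≤ (b:ℝ)^12 := pow_le_pow_right₀ (by linarith) (by norm_num)
        calc (b:ℝ)^12 + (b:ℝ)^8 ≤ 2 * (b:ℝ)^12 := by linarith
          _ = 2 * (b:ℝ)^8 * (b:ℝ)^4 := by ring
      have h4 : ((b^8 : ℕ) : ℝ) = (b:ℝ)^8 := by push_cast; ring
      rw [h4]; linarith
    calc C * (((GG (b^6) (b^8)).edgeSet.ncard : ℝ) / (b:ℝ)^4 + ((b^8 : ℕ) : ℝ))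
        ≤ C * (3 * (b:ℝ)^8) := by gcongr
      _ = (3 * C) * (b:ℝ)^8 := by ring
      _ ≤ K * (b:ℝ)^8 := by gcongr
      _ = ((K * b^8 : ℕ) : ℝ) := by push_cast; ring
      _ < N := by exact_mod_cast hNgt

end Pool.Agent.Results.MP_48292c_co.CliqueWithPendants
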